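import Pool.Agent.KS6_67.MR.Pos

set_option autoImplicit false

/-! # The combinatorial core, for all primes and all numbers of variables

This file follows the library's proof (module `R_seed8/S07600.lean`) of the case `p = 2`, `k = 3`. -/

namespace Pool.Agent.KS6_67.MR

/-- finite van der Waerden theorem (library) -/
lemma vdW (κ : Type) [Finite κ] (k : ℕ) :
    ∃ N : ℕ, ∀ c : ℕ → κ, ∃ a d : ℕ, 1 ≤ a ∧ 1 ≤ d ∧ a + k * d ≤ N ∧
      ∀ j ≤ k, c (a + j * d) = c a := by
  obtain ⟨ι, hι, H⟩ := Combinatorics.Line.exists_mono_in_high_dimension (Fin (k + 1)) κ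
  classical
  refine ⟨1 + k * Fintype.card ι, fun c => ?_⟩
  obtain ⟨l, col, hl⟩ := H (fun v => c (1 + ∑ i, (v i : ℕ)))
  set s : Finset ι := {i | l.idxFun i = none} with hs
  have hsum : ∀ x : Fin (k + 1), ∑ i, ((l x i : Fin (k+1)) : ℕ) =
      ∑ i, ((l 0 i : Fin (k+1)) : ℕ) + x * s.card := by
    intro x
    have h1 : ∀ i, ((l x i : Fin (k+1)) : ℕ) =
        ((l 0 i : Fin (k+1)) : ℕ) + (if i ∈ s then (x : ℕ) else 0) := by
      intro i
      by_cases hi : i ∈ s
      · have hi' : l.idxFun i = none := by simpa [hs] using hi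
        rw [if_pos hi, Combinatorics.Line.apply_none _ _ _ hi',
          Combinatorics.Line.apply_none _ _ _ hi']
        simp
      · have hi' : l.idxFun i ≠ none := by simpa [hs] using hi
        obtain ⟨y, hy⟩ := Option.ne_none_iff_exists.mp hi'
        rw [if_neg hi, Combinatorics.Line.apply_some hy.symm,
          Combinatorics.Line.apply_some hy.symm]
        simp
    rw [Finset.sum_congr rfl (fun i _ => h1 i), Finset.sum_add_distrib]
    congr 1
    rw [Finset.sum_ite_mem, Finset.univ_inter, Finset.sum_const, smul_eq_mul, mul_comm]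
  have hspos : 1 ≤ s.card := by
    obtain ⟨i, hi⟩ := l.proper
    exact Finset.card_pos.mpr ⟨i, by simp [hs, hi]⟩
  refine ⟨1 + ∑ i, ((l 0 i : Fin (k+1)) : ℕ), s.card, by omega, hspos, ?_, ?_⟩
  · have h2 := hsum (Fin.last k)
    have h3 : ∑ i, ((l (Fin.last k) i : Fin (k+1)) : ℕ) ≤ ∑ _i : ι, k :=
      Finset.sum_le_sum (fun i _ => Nat.lt_succ_iff.mp (Fin.is_lt _))
    rw [Finset.sum_const, smul_eq_mul, Finset.card_univ] at h3
    simp only [Fin.val_last] at h2
    rw [mul_comm k (Fintype.card ι)]
    omega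
  · intro j hj
    have h4 := hl ⟨j, Nat.lt_succ_of_le hj⟩
    have h5 := hl 0
    simp only at h4 h5
    rw [hsum] at h4
    simp only at h4
    rw [add_assoc, h4, h5]

/-- Iterated van der Waerden: a decreasing sequence `a 0 > a 1 > …` such that
`a l - a l' - q a l''` has the colour of `a l` whenever `l < l' < l''`. -/
lemma levels (κ : Type) [Finite κ] (q M : ℕ) :
    ∃ N : ℕ, ∀ χ : ℕ → κ, ∃ a : ℕ → ℕ,
      (∀ l, l < M → 1 ≤ a l ∧ a l ≤ N) ∧
      (∀ l l', l < l' → l' < M → a l' < a l) ∧
      (∀ l l' l'', l < l' → l' < l'' → l'' < M →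
        a l' + q * a l'' < a l ∧ χ (a l - a l' - q * a l'') = χ (a l)) := by
  induction M with
  | zero =>
    refine ⟨0, fun χ => ⟨fun _ => 0, ?_, ?_, ?_⟩⟩
    · intro l hl; omega
    · intro l l' _ hl; omega
    · intro l l' l'' _ _ hl; omega
  | succ M ih =>
    obtain ⟨N, hN⟩ := ih
    obtain ⟨W, hW⟩ := vdW κ ((q + 1) * N + 1)
    refine ⟨max W (W * N), fun χ => ?_⟩
    obtain ⟨s, D, hs, hD, hle, hmono⟩ := hW χ
    obtain ⟨b, hb1, hb2, hb3⟩ := hN (fun n => χ (D * n))
    have hDW : D ≤ W := by nlinarith [Nat.zero_le ((q + 1) * N * D)]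
    have hqN : ∀ x y, x ≤ N → y ≤ N → x + q * y ≤ (q + 1) * N := by
      intro x y hx hy
      have : q * y ≤ q * N := Nat.mul_le_mul_left _ hy
      linarith [add_mul q 1 N]
    refine ⟨fun l => if l = 0 then s + ((q + 1) * N + 1) * D else D * b (l - 1), ?_, ?_, ?_⟩
    · intro l hl
      by_cases h0 : l = 0
      · simp only [h0, if_true]
        exact ⟨by omega, le_trans hle (le_max_left _ _)⟩
      · simp only [h0, if_false]
        obtain ⟨h1, h2⟩ := hb1 (l - 1) (by omega)
        exact ⟨Nat.mul_pos hD h1, le_trans (Nat.mul_le_mul hDW h2) (le_max_right _ _)⟩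
    · intro l l' hll hl'
      have h0' : l' ≠ 0 := by omega
      by_cases h0 : l = 0
      · simp only [h0, h0', if_true, if_false]
        obtain ⟨h1, h2⟩ := hb1 (l' - 1) (by omega)
        have h3 := hqN _ 0 h2 (Nat.zero_le _)
        have h4 : b (l' - 1) * D ≤ ((q + 1) * N) * D := Nat.mul_le_mul_right _ (by omega)
        have h5 : ((q + 1) * N + 1) * D = ((q + 1) * N) * D + D := by ring
        rw [h5, mul_comm D]
        omega
      · simp only [h0, h0', if_false]
        exact Nat.mul_lt_mul_of_pos_left (hb2 (l - 1) (l' - 1) (by omega) (by omega)) hD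
    · intro l l' l'' hll hll' hl''
      have h0' : l' ≠ 0 := by omega
      have h0'' : l'' ≠ 0 := by omega
      by_cases h0 : l = 0
      · simp only [h0, h0', h0'', if_true, if_false]
        obtain ⟨h1, h2⟩ := hb1 (l' - 1) (by omega)
        obtain ⟨h3, h4⟩ := hb1 (l'' - 1) (by omega)
        have h5 := hqN _ _ h2 h4
        obtain ⟨m, hm⟩ := Nat.exists_eq_add_of_le h5
        have e0 : s + ((q + 1) * N + 1) * D =
            (s + (m + 1) * D) + (D * b (l' - 1) + q * (D * b (l'' - 1))) := by
          rw [hm]; ring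
        refine ⟨by rw [e0]; omega, ?_⟩
        have e1 : s + ((q + 1) * N + 1) * D - D * b (l' - 1) - q * (D * b (l'' - 1)) =
            s + (m + 1) * D := by
          rw [e0]; omega
        rw [e1, hmono _ (by omega), hmono _ le_rfl]
      · simp only [h0, h0', h0'', if_false]
        obtain ⟨h1, h2⟩ := hb3 (l - 1) (l' - 1) (l'' - 1) (by omega) (by omega) (by omega)
        have e0 : D * b (l' - 1) + q * (D * b (l'' - 1)) =
            D * (b (l' - 1) + q * b (l'' - 1)) := by ring
        refine ⟨by rw [e0]; exact Nat.mul_lt_mul_of_pos_left h1 hD, ?_⟩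
        have e1 : D * b (l - 1) - D * b (l' - 1) - q * (D * b (l'' - 1)) =
            D * (b (l - 1) - b (l' - 1) - q * b (l'' - 1)) := by
          rw [Nat.mul_sub, Nat.mul_sub]
          congr 1
          ring
        rw [e1]
        exact h2

/-- casting down to a smaller power -/
lemma not_dvd_of_small (p r e n : ℕ) (her : e ≤ r) (h0 : 0 < n % p ^ e) :
    ¬ (p : ZMod (p ^ r)) ^ e ∣ (n : ZMod (p ^ r)) := by
  rintro ⟨q, hq⟩
  have hdvd : p ^ e ∣ p ^ r := pow_dvd_pow p her
  have h1 := congrArg (ZMod.castHom hdvd (ZMod (p ^ e))) hq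
  rw [map_mul, map_pow, map_natCast, map_natCast] at h1
  have h3 : ((p : ZMod (p ^ e)) ^ e) = 0 := by
    have := ZMod.natCast_self (p ^ e)
    push_cast at this
    exact this
  rw [h3, zero_mul, ZMod.natCast_eq_zero_iff] at h1
  have := Nat.mod_eq_zero_of_dvd h1
  omega

/-- The combinatorial core: every `K`-colouring of `ℤ/p^(2t)` has a monochromatic solution of
`x + (p^t - 1) y + p^t z + n p^t x = 0` with `p^(t-e) ∤ x`, once `t` is large. -/
lemma core (p K n e : ℕ) (hp : 2 ≤ p) : ∃ t : ℕ, e < t ∧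
    ∀ c : ZMod (p ^ (2 * t)) → Fin K,
    ∃ x y z : ZMod (p ^ (2 * t)), c x = c y ∧ c y = c z ∧
      x + (p ^ t - 1) * y + p ^ t * z + n * (p ^ t * x) = 0 ∧
      ¬ (p : ZMod (p ^ (2 * t))) ^ (t - e) ∣ x := by
  classical
  set M := K * (K + 1) + 1 with hM
  obtain ⟨N, hN⟩ := levels (Fin K) (n + 1) M
  refine ⟨N + 1 + e, by omega, ?_⟩
  set t := N + 1 + e with ht
  have hppos : 0 < p := by omega
  have hmpos : 0 < p ^ t := Nat.pow_pos hppos
  have htN : N < p ^ (t - e) := by
    have h1 : N + 1 < p ^ (N + 1) := Nat.lt_pow_self (by omega)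
    have h2 : t - e = N + 1 := by omega
    rw [h2]; omega
  intro c
  -- the colour of a point of the fibre over `n`
  set f : ℕ → ℕ → Fin K := fun n w => c ((n + p ^ t * w : ℕ) : ZMod (p ^ (2 * t))) with hf
  have hKpos : 0 < K := by
    have := (f 0 0).isLt; omega
  -- majority colours
  have hmaj : ∀ n : ℕ, ∃ C : Fin K, p ^ t ≤ ((Finset.range (p ^ t)).filter
      (fun w => f n w = C)).card * K := by
    intro n
    by_contra hcon
    push Not at hcon
    have h1 : (Finset.range (p ^ t)).card = ∑ C : Fin K, ((Finset.range (p ^ t)).filter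
        (fun w => f n w = C)).card :=
      Finset.card_eq_sum_card_fiberwise (fun w _ => Finset.mem_coe.mpr (Finset.mem_univ _))
    rw [Finset.card_range] at h1
    have h2 : p ^ t * K = ∑ C : Fin K, ((Finset.range (p ^ t)).filter
        (fun w => f n w = C)).card * K := by
      rw [← Finset.sum_mul, ← h1]
    have h3 : ∑ C : Fin K, ((Finset.range (p ^ t)).filter
        (fun w => f n w = C)).card * K < ∑ _C : Fin K, p ^ t := by
      apply Finset.sum_lt_sum_of_nonempty
      · exact ⟨⟨0, hKpos⟩, Finset.mem_univ _⟩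
      · intro C _
        exact hcon C
    rw [Finset.sum_const, Finset.card_univ, Fintype.card_fin, smul_eq_mul] at h3
    rw [← h2, mul_comm] at h3
    exact lt_irrefl _ h3
  choose χ hχ using hmaj
  obtain ⟨a, ha1, ha2, ha3⟩ := hN χ
  -- many levels with the same colour
  obtain ⟨C, -, hC⟩ := Finset.exists_lt_card_fiber_of_mul_lt_card_of_maps_to
    (s := Finset.range M) (t := (Finset.univ : Finset (Fin K))) (f := fun l => χ (a l))
    (n := K + 1) (fun l _ => Finset.mem_univ _)
    (by rw [Finset.card_univ, Fintype.card_fin, Finset.card_range]; omega)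
  obtain ⟨S, hSsub, hScard⟩ := Finset.exists_subset_card_eq (Nat.succ_le_of_lt hC)
  have hSmem : ∀ l ∈ S, l < M ∧ χ (a l) = C := by
    intro l hl
    have := hSsub hl
    rw [Finset.mem_filter, Finset.mem_range] at this
    exact this
  set o := S.orderEmbOfFin hScard with ho
  have hpS : ∀ i, o i ∈ S := fun i => Finset.orderEmbOfFin_mem S hScard i
  set u := a (o (Fin.last (K + 1))) with hu
  obtain ⟨hlast1, hlast2⟩ := hSmem _ (hpS (Fin.last (K + 1)))
  obtain ⟨hu1, huN⟩ := ha1 _ hlast1
  -- the dense set of the fibre over `u`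
  set A := (Finset.range (p ^ t)).filter (fun w => f u w = C) with hA
  have hAcard : p ^ t ≤ A.card * K := by
    have := hχ u
    rw [hu, hlast2] at this
    exact this
  have hApos : 0 < A.card := by
    rcases Nat.eq_zero_or_pos A.card with h | h
    · rw [h, zero_mul] at hAcard
      omega
    · exact h
  -- pigeonhole on the translates `A + h_i`
  have hcardlt : (Finset.range (p ^ t)).card <
      ((Finset.univ : Finset (Fin (K + 1))) ×ˢ A).card := by
    rw [Finset.card_range, Finset.card_product, Finset.card_univ, Fintype.card_fin]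
    calc p ^ t ≤ A.card * K := hAcard
      _ < A.card * K + A.card := by omega
      _ = (K + 1) * A.card := by ring
  obtain ⟨⟨i, w⟩, hiw, ⟨j, w'⟩, hjw, hne, heq⟩ :=
    Finset.exists_ne_map_eq_of_card_lt_of_maps_to hcardlt
      (f := fun q : Fin (K + 1) × ℕ => (q.2 + a (o q.1.castSucc)) % p ^ t)
      (fun q _ => by
        simp only [Finset.coe_range, Set.mem_Iio]
        exact Nat.mod_lt _ hmpos)
  simp only [Finset.mem_product, Finset.mem_univ, true_and] at hiw hjw
  simp only at heq
  have hwr : w < p ^ t ∧ f u w = C := by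
    rw [hA, Finset.mem_filter, Finset.mem_range] at hiw; exact hiw
  have hwr' : w' < p ^ t ∧ f u w' = C := by
    rw [hA, Finset.mem_filter, Finset.mem_range] at hjw; exact hjw
  have hij : i ≠ j := by
    intro hij
    subst hij
    apply hne
    have h1 : w ≡ w' [MOD p ^ t] := Nat.ModEq.add_right_cancel' _ heq
    have h2 : w = w' := Nat.ModEq.eq_of_lt_of_lt h1 hwr.1 hwr'.1
    rw [h2]
  -- from a coincidence with `i < j` we get the solution
  have main : ∀ (i j : Fin (K + 1)) (w w' : ℕ), i < j → f u w = C → f u w' = C →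
      (w + a (o i.castSucc)) % p ^ t = (w' + a (o j.castSucc)) % p ^ t →
      ∃ x y z : ZMod (p ^ (2 * t)), c x = c y ∧ c y = c z ∧
      x + (p ^ t - 1) * y + p ^ t * z + n * (p ^ t * x) = 0 ∧
      ¬ (p : ZMod (p ^ (2 * t))) ^ (t - e) ∣ x := by
    intro i j w w' hij hw hw' heq
    have hpij : o i.castSucc < o j.castSucc := o.strictMono (by simpa using hij)
    have hpjl : o j.castSucc < o (Fin.last (K + 1)) := o.strictMono (Fin.castSucc_lt_last j)
    obtain ⟨hlt, hcol⟩ := ha3 _ _ _ hpij hpjl hlast1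
    set v := a (o i.castSucc) - a (o j.castSucc) - (n + 1) * a (o (Fin.last (K + 1))) with hv
    have hvC : χ v = C := by
      rw [hcol]
      exact (hSmem _ (hpS i.castSucc)).2
    -- a point of colour `C` in the fibre over `v`
    have hex : ∃ w'' : ℕ, f v w'' = C := by
      have h1 := hχ v
      rw [hvC] at h1
      have h2 : 0 < ((Finset.range (p ^ t)).filter (fun w => f v w = C)).card := by
        rcases Nat.eq_zero_or_pos
          ((Finset.range (p ^ t)).filter (fun w => f v w = C)).card with h | h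
        · rw [h, zero_mul] at h1
          omega
        · exact h
      obtain ⟨w'', hw''⟩ := Finset.card_pos.mp h2
      rw [Finset.mem_filter] at hw''
      exact ⟨w'', hw''.2⟩
    obtain ⟨w'', hw''⟩ := hex
    have hsum : a (o i.castSucc) = a (o j.castSucc) + ((n + 1) * u + v) := by
      rw [hu]; omega
    have hmod : w + ((n + 1) * u + v) ≡ w' [MOD p ^ t] := by
      have h1 : w + ((n + 1) * u + v) + a (o j.castSucc) ≡ w' + a (o j.castSucc) [MOD p ^ t] := by
        have e : w + ((n + 1) * u + v) + a (o j.castSucc) = w + a (o i.castSucc) := by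
          rw [hsum]; ring
        rw [e]
        exact heq
      exact Nat.ModEq.add_right_cancel' _ h1
    -- the same congruence multiplied by `p ^ t`
    have hmod2 : p ^ t * (w + ((n + 1) * u + v)) ≡ p ^ t * w' [MOD p ^ (2 * t)] := by
      have := Nat.ModEq.mul_left' (p ^ t) hmod
      rwa [← pow_add, ← two_mul] at this
    have hz : ((p ^ t * (w + ((n + 1) * u + v)) : ℕ) : ZMod (p ^ (2 * t))) = ((p ^ t * w' : ℕ) :
        ZMod (p ^ (2 * t))) := (ZMod.natCast_eq_natCast_iff _ _ _).mpr hmod2
    have hpow0 : (p : ZMod (p ^ (2 * t))) ^ t * p ^ t = 0 := by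
      have := ZMod.natCast_self (p ^ (2 * t))
      push_cast at this
      rw [← pow_add, ← two_mul]
      exact this
    refine ⟨((u + p ^ t * w : ℕ) : ZMod (p ^ (2 * t))), ((u + p ^ t * w' : ℕ) :
      ZMod (p ^ (2 * t))), ((v + p ^ t * w'' : ℕ) : ZMod (p ^ (2 * t))), ?_, ?_, ?_, ?_⟩
    · exact hw.trans hw'.symm
    · exact hw'.trans hw''.symm
    · push_cast at hz ⊢
      linear_combination hz + ((w' : ZMod (p ^ (2 * t))) + (w'' : ZMod (p ^ (2 * t))) +
        n * (w : ZMod (p ^ (2 * t)))) * hpow0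
    · apply not_dvd_of_small _ _ _ _ (by omega)
      have e1 : p ^ t = p ^ (t - e) * p ^ e := by
        rw [← pow_add]; congr 1; omega
      rw [e1, mul_assoc, Nat.add_mul_mod_self_left, Nat.mod_eq_of_lt (by omega)]
      exact hu1
  rcases lt_or_gt_of_ne hij with h | h
  · exact main i j w w' h hwr.2 hwr'.2 heq
  · exact main j i w' w h hwr'.2 hwr.2 heq.symm

end Pool.Agent.KS6_67.MR
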