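import Mathlib

set_option autoImplicit false

/-! # The modular statement for at most two variables -/

namespace Pool.Agent.KS6_67.MR

open Finset

/-- A functional graph on a finite set can be coloured with three colours: `f x` and `x` get
different colours unless they are equal. -/
lemma three_col {α : Type} [Finite α] (f : α → α) :
    ∃ c : α → Fin 3, ∀ x, f x ≠ x → c (f x) ≠ c x := by
  classical
  have := Fintype.ofFinite α
  have key : ∀ n : ℕ, ∀ S : Finset α, S.card = n →
      ∃ c : α → Fin 3, ∀ x ∈ S, f x ∈ S → f x ≠ x → c (f x) ≠ c x := by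
    intro n
    induction n with
    | zero =>
      intro S hS
      rw [Finset.card_eq_zero] at hS
      subst hS
      exact ⟨fun _ => 0, fun x hx => absurd hx (Finset.notMem_empty x)⟩
    | succ n ih =>
      intro S hS
      -- an element with at most one preimage in `S`
      obtain ⟨x, hx, hx1⟩ : ∃ x ∈ S, (S.filter fun y => f y = x).card ≤ 1 := by
        by_contra h
        push Not at h
        have h1 : ∑ x ∈ S, (S.filter fun y => f y = x).card ≤ S.card := by
          rw [← Finset.card_biUnion]
          · exact Finset.card_le_card fun y hy => by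
              obtain ⟨x, -, hx⟩ := Finset.mem_biUnion.1 hy
              exact (Finset.mem_filter.1 hx).1
          · intro x _ y _ hxy
            refine Finset.disjoint_left.2 fun z hz hz' => hxy ?_
            rw [← (Finset.mem_filter.1 hz).2, (Finset.mem_filter.1 hz').2]
        have h2 : ∑ _x ∈ S, 2 ≤ ∑ x ∈ S, (S.filter fun y => f y = x).card :=
          Finset.sum_le_sum fun x hx => h x hx
        rw [Finset.sum_const, smul_eq_mul] at h2
        omega
      obtain ⟨c, hc⟩ := ih (S.erase x) (by rw [Finset.card_erase_of_mem hx, hS]; rfl)
      -- a colour for `x`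
      obtain ⟨y, hy⟩ : ∃ y, ∀ z ∈ S, f z = x → z = y := by
        rcases (S.filter fun y => f y = x).eq_empty_or_nonempty with h | ⟨y, hy⟩
        · exact ⟨x, fun z hz hz' => absurd (Finset.mem_filter.2 ⟨hz, hz'⟩) (by rw [h]; simp)⟩
        · exact ⟨y, fun z hz hz' => Finset.card_le_one.1 hx1 z (Finset.mem_filter.2 ⟨hz, hz'⟩) y hy⟩
      obtain ⟨k, k1, k2⟩ : ∃ k : Fin 3, k ≠ c (f x) ∧ k ≠ c y := by
        generalize c (f x) = u
        generalize c y = v
        revert u v
        decide
      refine ⟨Function.update c x k, fun z hz hfz hne => ?_⟩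
      by_cases h1 : z = x
      · subst h1
        rw [Function.update_self, Function.update_of_ne hne]
        exact k1.symm
      · by_cases h2 : f z = x
        · rw [h2, Function.update_self, Function.update_of_ne h1, hy z hz h2]
          exact k2
        · rw [Function.update_of_ne h2, Function.update_of_ne h1]
          exact hc z (Finset.mem_erase.2 ⟨h1, hz⟩) (Finset.mem_erase.2 ⟨h2, hfz⟩) hne
  obtain ⟨c, hc⟩ := key _ Finset.univ rfl
  exact ⟨c, fun x => hc x (Finset.mem_univ _) (Finset.mem_univ _)⟩

/-- Two variables: a colouring with three colours such that monochromatic solutions of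
`a x + a s y = 0` are killed by `a + a s`. -/
lemma two_var {R : Type} [CommRing R] [Finite R] (a s : R) : ∃ c : R → Fin 3, ∀ x y,
    c x = c y → a * x + a * s * y = 0 → (a + a * s) * x = 0 ∧ (a + a * s) * y = 0 := by
  obtain ⟨c, hc⟩ := three_col fun y : R => -s * y
  refine ⟨fun x => c (a * x), fun x y h e => ?_⟩
  have e1 : a * x = -s * (a * y) := by linear_combination e
  have e2 : -s * (a * y) = a * y := by
    by_contra hne
    refine hc (a * y) hne ?_
    simp only at h
    rw [← e1, h]
  constructor
  · have e3 : a * x = a * y := e1.trans e2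
    linear_combination (1 + s) * e3 - e2
  · linear_combination (-1 : R) * e2

end Pool.Agent.KS6_67.MR
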